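import Pool.Agent.Helper56_LP.Exists
import Pool.Agent.Helper41.BS.ExistBM

/-!
# MP_f368f5_pr: existence of the mobile nodes

The product of a space which carries a Poisson process and of countably many copies of a space
which carries a Brownian motion.
-/

set_option autoImplicit false

namespace Pool.Agent.Helper56_LP

open MeasureTheory ProbabilityTheory Set Filter Topology
open scoped ENNReal NNReal
open Pool.Agent.Helper712_LP

/-- A Brownian motion stays a Brownian motion on a larger space. -/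
lemma brownian_lift {Ω Ω' : Type} [MeasurableSpace Ω] [MeasurableSpace Ω'] {P : Measure Ω}
    {P' : Measure Ω'} {B : ℝ≥0 → Ω → ℝ} {f : Ω' → Ω} (hf : MeasurePreserving f P' P)
    (hB : IsBrownianReal B P) : IsBrownianReal (fun t ω => B t (f ω)) P' where
  hasLaw I := (hB.hasLaw I).comp hf.hasLaw
  cont := hf.quasiMeasurePreserving.ae hB.cont

/-- An independent family stays independent on a larger space. -/
lemma indep_lift {Ω Ω' ι : Type} {β : ι → Type} [MeasurableSpace Ω] [MeasurableSpace Ω']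
    [∀ i, MeasurableSpace (β i)] {P : Measure Ω} {P' : Measure Ω'} {X : (i : ι) → Ω → β i}
    {f : Ω' → Ω} (hf : MeasurePreserving f P' P) (hX : ∀ i, Measurable (X i))
    (h : iIndepFun X P) : iIndepFun (fun i ω => X i (f ω)) P' := by
  rw [iIndepFun_iff_measure_inter_preimage_eq_mul] at h ⊢
  intro S sets hs
  have h1 := h S hs
  have h2 : ∀ i ∈ S, P' ((fun ω => X i (f ω)) ⁻¹' sets i) = P (X i ⁻¹' sets i) := by
    intro i hi
    exact hf.measure_preimage ((hX i) (hs i hi)).nullMeasurableSet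
  rw [Finset.prod_congr rfl h2, ← h1]
  have h3 : (⋂ i ∈ S, (fun ω => X i (f ω)) ⁻¹' sets i) = f ⁻¹' (⋂ i ∈ S, X i ⁻¹' sets i) := by
    ext ω
    simp
  rw [h3]
  exact hf.measure_preimage (Finset.measurableSet_biInter _ fun i hi =>
    (hX i) (hs i hi)).nullMeasurableSet

/-- A Poisson process stays a Poisson process on a larger space. -/
lemma poisson_lift {d : ℕ} {Ω Ω' : Type} [MeasurableSpace Ω] [MeasurableSpace Ω'] {P : Measure Ω}
    {P' : Measure Ω'} {lam : ℝ≥0} {x : ℕ → Ω → E d} {f : Ω' → Ω} (hf : MeasurePreserving f P' P)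
    (hx : IsPoissonProcess P lam x) : IsPoissonProcess P' lam (fun i ω => x i (f ω)) where
  measurable i := (hx.measurable i).comp hf.measurable
  law A hA hAf := by
    have h1 : count (fun i ω => x i (f ω)) A = count x A ∘ f := rfl
    rw [h1, ← Measure.map_map (measurable_count hx.measurable hA) hf.measurable, hf.map_eq]
    exact hx.law A hA hAf
  indep ι _ A hA hAf hd :=
    indep_lift (X := fun i => count x (A i)) hf
      (fun i => measurable_count hx.measurable (hA i)) (hx.indep ι A hA hAf hd)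

/-- The mobile nodes exist. -/
theorem exists_mobile : S_existsMobile := by
  intro d hd lam hlam
  obtain ⟨Ω₁, m₁, P₁, hP₁, x, hx⟩ := exists_ppp d hd lam hlam
  obtain ⟨Ω₂, m₂, P₂, hP₂, B, hB⟩ := Pool.Agent.Helper41.BS.exists_bm2_pre
  set Q : Measure ((ℕ × Fin d) → Ω₂) := Measure.infinitePi (fun _ => P₂) with hQ
  have h1 : MeasurePreserving (Prod.fst : Ω₁ × ((ℕ × Fin d) → Ω₂) → Ω₁) (P₁.prod Q) P₁ :=
    measurePreserving_fst
  have h2 : MeasurePreserving (Prod.snd : Ω₁ × ((ℕ × Fin d) → Ω₂) → _) (P₁.prod Q) Q :=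
    measurePreserving_snd
  have h3 : ∀ p : ℕ × Fin d, MeasurePreserving (fun ω : (ℕ × Fin d) → Ω₂ => ω p) Q P₂ := fun p =>
    measurePreserving_eval_infinitePi (fun _ => P₂) p
  have hmB : ∀ t, Measurable (B 0 t) := hB.meas 0
  have hpath : Measurable (fun ω (t : ℝ≥0) => B 0 t ω) := measurable_pi_iff.mpr hmB
  refine ⟨Ω₁ × ((ℕ × Fin d) → Ω₂), inferInstance, P₁.prod Q, inferInstance,
    fun i ω => x i ω.1, fun i t ω => WithLp.toLp 2 (fun j => B 0 t (ω.2 (i, j))), ?_⟩
  refine ⟨poisson_lift h1 hx, ?_, ?_, ?_, ?_⟩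
  · intro i t
    refine (WithLp.measurable_toLp 2 (Fin d → ℝ)).comp (measurable_pi_iff.mpr fun j => ?_)
    exact (hmB t).comp ((measurable_pi_apply (i, j)).comp measurable_snd)
  · intro i j
    exact brownian_lift ((h3 (i, j)).comp h2) (hB.bm 0)
  · have h4 : iIndepFun (fun (p : ℕ × Fin d) (ω : (ℕ × Fin d) → Ω₂) (t : ℝ≥0) => B 0 t (ω p)) Q :=
      iIndepFun_infinitePi (P := fun _ => P₂) (X := fun _ ω (t : ℝ≥0) => B 0 t ω)
        (fun _ => hpath)
    exact indep_lift h2 (fun p => hpath.comp (measurable_pi_apply p)) h4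
  · have h5 : Measurable (fun (ω : Ω₁) i => x i ω) := measurable_pi_iff.mpr hx.measurable
    have h6 : Measurable (fun (ω : (ℕ × Fin d) → Ω₂) (i : ℕ) (t : ℝ≥0) =>
        (WithLp.toLp 2 (fun j => B 0 t (ω (i, j))) : E d)) := by
      refine measurable_pi_iff.mpr fun i => measurable_pi_iff.mpr fun t => ?_
      refine (WithLp.measurable_toLp 2 (Fin d → ℝ)).comp (measurable_pi_iff.mpr fun j => ?_)
      exact (hmB t).comp (measurable_pi_apply (i, j))
    exact indepFun_prod (μ := P₁) (ν := Q) h5 h6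

end Pool.Agent.Helper56_LP
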