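import Pool.Agent.Helper56_LP.Ppp

/-!
# MP_f368f5_pr: the generating functional of a marked Poisson process
-/

set_option autoImplicit false

namespace Pool.Agent.Helper56_LP

open MeasureTheory ProbabilityTheory Set Filter Topology
open scoped ENNReal NNReal
open Pool.Agent.Helper712_LP

/-- The average over the marks, for fixed points. -/
lemma marks_avg {d : ℕ} {M : Type} [MeasurableSpace M] (W : Measure M) [IsProbabilityMeasure W]
    {φ : E d × M → ℝ≥0∞} (hφ : Measurable φ) (hφ1 : ∀ q, φ q ≤ 1) (z : ℕ → E d) :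
    ∫⁻ y, ⨅ m : ℕ, ∏ i ∈ Finset.range m, (1 - φ (z i, y i)) ∂(Measure.infinitePi
      (fun _ : ℕ => W)) = ⨅ m : ℕ, ∏ i ∈ Finset.range m, (1 - ∫⁻ m, φ (z i, m) ∂W) := by
  have hsec : ∀ i, Measurable (fun m => 1 - φ (z i, m)) := fun i =>
    Measurable.sub measurable_const (hφ.comp measurable_prodMk_left)
  have hmeas : ∀ m : ℕ, Measurable (fun y : ℕ → M => ∏ i ∈ Finset.range m,
      (1 - φ (z i, y i))) := by
    intro m
    refine Finset.measurable_fun_prod _ fun i _ => ?_
    exact (hsec i).comp (measurable_pi_apply i)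
  have hanti : Antitone (fun m : ℕ => fun y : ℕ → M => ∏ i ∈ Finset.range m,
      (1 - φ (z i, y i))) := fun m n h y => prod_antitone (fun i => φ (z i, y i)) h
  rw [lintegral_iInf hmeas hanti]
  · refine iInf_congr fun m => ?_
    have hind : iIndepFun (fun (i : ℕ) (y : ℕ → M) => y i)
        (Measure.infinitePi (fun _ : ℕ => W)) :=
      iIndepFun_infinitePi (P := fun _ : ℕ => W) (X := fun _ y => y) (fun _ => measurable_id)
    have h1 : iIndepFun (fun (i : ℕ) (y : ℕ → M) => 1 - φ (z i, y i))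
        (Measure.infinitePi (fun _ : ℕ => W)) :=
      hind.comp (fun i m => 1 - φ (z i, m)) hsec
    have h2 := lintegral_prod_eq_prod_lintegral_of_indepFun (Finset.range m) _ h1
      (fun i => (hsec i).comp (measurable_pi_apply i))
    rw [h2]
    refine Finset.prod_congr rfl fun i _ => ?_
    have h3 : ∫⁻ y : ℕ → M, (1 - φ (z i, y i)) ∂(Measure.infinitePi (fun _ : ℕ => W)) =
        ∫⁻ m, (1 - φ (z i, m)) ∂W := by
      have h4 := lintegral_map (μ := Measure.infinitePi (fun _ : ℕ => W)) (hsec i)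
        (measurable_pi_apply i)
      rw [← h4, Measure.infinitePi_map_eval]
    have h5 : Measurable (fun m => φ (z i, m)) := hφ.comp measurable_prodMk_left
    rw [h3, lintegral_sub h5]
    · simp
    · refine ne_top_of_le_ne_top ENNReal.one_ne_top ?_
      calc ∫⁻ m, φ (z i, m) ∂W ≤ ∫⁻ _, 1 ∂W := lintegral_mono fun m => hφ1 _
        _ = 1 := by simp
    · exact Eventually.of_forall fun m => hφ1 _
  · simp

/-- The generating functional of a marked Poisson process. -/
theorem marked : S_marked := by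
  intro d Ω _ P _ lam x hx M _ Y W _ hY hYW hYi hxY φ hφ hφ1 hφi
  have hxm : Measurable (fun ω i => x i ω) := measurable_pi_iff.mpr hx.measurable
  have hYm : Measurable (fun ω i => Y i ω) := measurable_pi_iff.mpr hY
  have hYlaw : P.map (fun ω i => Y i ω) = Measure.infinitePi (fun _ : ℕ => W) := by
    rw [hYi.map_fun_eq_infinitePi_map hY]
    congr 1
    ext1 i
    exact hYW i
  have hjoint : P.map (fun ω => ((fun i => x i ω), (fun i => Y i ω))) =
      (P.map (fun ω i => x i ω)).prod (Measure.infinitePi (fun _ : ℕ => W)) := by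
    rw [(indepFun_iff_map_prod_eq_prod_map_map hxm.aemeasurable hYm.aemeasurable).mp hxY, hYlaw]
  have hxp : IsProbabilityMeasure (P.map (fun ω i => x i ω)) :=
    Measure.isProbabilityMeasure_map hxm.aemeasurable
  have hF : Measurable (fun q : (ℕ → E d) × (ℕ → M) =>
      ⨅ m : ℕ, ∏ i ∈ Finset.range m, (1 - φ (q.1 i, q.2 i))) := by
    refine Measurable.iInf fun m => ?_
    refine Finset.measurable_fun_prod _ fun i _ => ?_
    refine Measurable.sub measurable_const (hφ.comp ?_)
    exact ((measurable_pi_apply i).comp measurable_fst).prodMk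
      ((measurable_pi_apply i).comp measurable_snd)
  have h1 : ∫⁻ ω, ⨅ m : ℕ, ∏ i ∈ Finset.range m, (1 - φ (x i ω, Y i ω)) ∂P =
      ∫⁻ q, ⨅ m : ℕ, ∏ i ∈ Finset.range m, (1 - φ (q.1 i, q.2 i))
        ∂(P.map (fun ω => ((fun i => x i ω), (fun i => Y i ω)))) :=
    (lintegral_map hF (hxm.prodMk hYm)).symm
  rw [h1, hjoint, lintegral_prod _ hF.aemeasurable]
  simp_rw [marks_avg W hφ hφ1]
  have hbar : Measurable (fun z => ∫⁻ m, φ (z, m) ∂W) := hφ.lintegral_prod_right'
  have hG : Measurable (fun z : ℕ → E d => ⨅ m : ℕ, ∏ i ∈ Finset.range m,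
      (1 - ∫⁻ m, φ (z i, m) ∂W)) := by
    refine Measurable.iInf fun m => ?_
    refine Finset.measurable_fun_prod _ fun i _ => ?_
    exact Measurable.sub measurable_const (hbar.comp (measurable_pi_apply i))
  rw [lintegral_map hG hxm]
  refine ppp d Ω P lam x hx (fun z => ∫⁻ m, φ (z, m) ∂W) hbar (fun z => ?_) hφi
  calc ∫⁻ m, φ (z, m) ∂W ≤ ∫⁻ _, 1 ∂W := lintegral_mono fun m => hφ1 _
    _ = 1 := by simp

end Pool.Agent.Helper56_LP
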