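import Pool.Agent.Helper712_LP.Stmts

/-!
# MP_f368f5_pr: the paths of the Brownian motions

The proofs of `S_shift`, `S_pathLaw`, `S_pathIndep` and `S_markov`.
-/

set_option autoImplicit false

namespace Pool.Agent.Helper56_LP

open MeasureTheory ProbabilityTheory Set Filter Topology
open scoped ENNReal NNReal
open Pool.Agent.Helper712_LP

/-- The path in `ℝ^d` with the given coordinates. -/
noncomputable def assemble (d : ℕ) (w : Fin d → ℝ≥0 → ℝ) (t : ℝ≥0) : E d :=
  WithLp.toLp 2 (fun j => w j t)

lemma measurable_assemble (d : ℕ) : Measurable (assemble d) := by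
  refine measurable_pi_iff.mpr fun t => ?_
  unfold assemble
  have h1 : Measurable (fun w : Fin d → ℝ≥0 → ℝ => fun j => w j t) :=
    measurable_pi_iff.mpr fun j => (measurable_pi_apply t).comp (measurable_pi_apply j)
  exact (WithLp.measurable_toLp 2 (Fin d → ℝ)).comp h1

lemma measurable_coord' {d : ℕ} (j : Fin d) : Measurable (fun y : E d => y j) := by
  fun_prop

lemma measurable_coordPath {d : ℕ} {Ω : Type} [MeasurableSpace Ω] {Z : ℕ → ℝ≥0 → Ω → E d}
    (hZ : ∀ i t, Measurable (Z i t)) (i : ℕ) (j : Fin d) :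
    Measurable (fun ω (t : ℝ≥0) => Z i t ω j) :=
  measurable_pi_iff.mpr fun t => (measurable_coord' j).comp (hZ i t)

/-- Restarting the Brownian motions. -/
theorem shift : S_shift := by
  intro d Ω _ P _ Z hZ s
  refine ⟨fun i t => ?_, fun i j => ?_, ?_⟩
  · unfold incr
    exact (hZ.measurable i (s + t)).sub (hZ.measurable i s)
  · exact (hZ.brownian i j).shift s
  · have hm : Measurable (fun (w : ℝ≥0 → ℝ) (t : ℝ≥0) => w (s + t) - w s) :=
      measurable_pi_iff.mpr fun t => (measurable_pi_apply (s + t)).sub (measurable_pi_apply s)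
    exact hZ.indep.comp (fun _ w t => w (s + t) - w s) (fun _ => hm)

/-- The law of the path of a real Brownian motion is unique. -/
lemma real_law {Ω Ω' : Type} [MeasurableSpace Ω] [MeasurableSpace Ω'] {P : Measure Ω}
    {P' : Measure Ω'} {B : ℝ≥0 → Ω → ℝ} {B' : ℝ≥0 → Ω' → ℝ} (hB : IsPreBrownianReal B P)
    (hB' : IsPreBrownianReal B' P') (hm : ∀ t, Measurable (B t)) (hm' : ∀ t, Measurable (B' t)) :
    P.map (fun ω t => B t ω) = P'.map (fun ω t => B' t ω) := by
  have key : ∀ {Ω : Type} [MeasurableSpace Ω] {P : Measure Ω} {B : ℝ≥0 → Ω → ℝ},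
      IsPreBrownianReal B P → (∀ t, Measurable (B t)) →
      IsProjectiveLimit (P.map (fun ω t => B t ω)) (BrownianReal.projectiveFamily) := by
    intro Ω _ P B hB hm I
    have h1 : Measurable (fun ω t => B t ω) := measurable_pi_iff.mpr hm
    rw [Measure.map_map (Finset.measurable_restrict I) h1]
    exact (hB.hasLaw I).map_eq
  exact (key hB hm).unique (key hB' hm')

/-- The joint law of the coordinates of the path of one motion. -/
lemma coords_law {d : ℕ} {Ω : Type} [MeasurableSpace Ω] {P : Measure Ω}
    {Z : ℕ → ℝ≥0 → Ω → E d} (hZ : Motions P Z) (i : ℕ) :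
    P.map (fun ω (j : Fin d) (t : ℝ≥0) => Z i t ω j) =
      Measure.infinitePi (fun j : Fin d => P.map (fun ω (t : ℝ≥0) => Z i t ω j)) := by
  have h1 : iIndepFun (fun (j : Fin d) ω (t : ℝ≥0) => Z i t ω j) P :=
    hZ.indep.precomp (g := fun j : Fin d => (i, j)) (fun j j' h => (Prod.mk.inj h).2)
  exact h1.map_fun_eq_infinitePi_map (fun j => measurable_coordPath hZ.measurable i j)

/-- The law of the path of one motion does not depend on the choices. -/
theorem pathLaw : S_pathLaw := by
  intro d Ω Ω' _ _ P P' _ _ Z Z' hZ hZ' i i'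
  have h1 : Measurable (fun ω (j : Fin d) (t : ℝ≥0) => Z i t ω j) :=
    measurable_pi_iff.mpr fun j => measurable_coordPath hZ.measurable i j
  have h1' : Measurable (fun ω (j : Fin d) (t : ℝ≥0) => Z' i' t ω j) :=
    measurable_pi_iff.mpr fun j => measurable_coordPath hZ'.measurable i' j
  have h2 : (fun ω (t : ℝ≥0) => Z i t ω) = assemble d ∘ (fun ω (j : Fin d) (t : ℝ≥0) =>
      Z i t ω j) := rfl
  have h2' : (fun ω (t : ℝ≥0) => Z' i' t ω) = assemble d ∘ (fun ω (j : Fin d) (t : ℝ≥0) =>
      Z' i' t ω j) := rfl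
  rw [h2, h2', ← Measure.map_map (measurable_assemble d) h1,
    ← Measure.map_map (measurable_assemble d) h1', coords_law hZ i, coords_law hZ' i']
  congr 2
  funext j
  exact real_law (hZ.brownian i j).toIsPreBrownianReal (hZ'.brownian i' j).toIsPreBrownianReal
    (fun t => (measurable_coord' j).comp (hZ.measurable i t))
    (fun t => (measurable_coord' j).comp (hZ'.measurable i' t))

/-- The paths of the motions are independent. -/
theorem pathIndep : S_pathIndep := by
  intro d Ω _ P _ Z hZ
  have hm : ∀ (i : ℕ) (j : Fin d), Measurable (fun ω (t : ℝ≥0) => Z i t ω j) := fun i j =>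
    measurable_coordPath hZ.measurable i j
  have hmi : ∀ i : ℕ, Measurable (fun ω (j : Fin d) (t : ℝ≥0) => Z i t ω j) := fun i =>
    measurable_pi_iff.mpr fun j => hm i j
  have h1 : iIndepFun (fun (i : ℕ) ω (j : Fin d) (t : ℝ≥0) => Z i t ω j) P := by
    rw [iIndepFun_iff_map_fun_eq_infinitePi_map hmi]
    have hsig : iIndepFun (fun (p : (_ : ℕ) × Fin d) ω (t : ℝ≥0) => Z p.1 t ω p.2) P :=
      hZ.indep.precomp (g := fun p : (_ : ℕ) × Fin d => (p.1, p.2)) (by
        rintro ⟨a, b⟩ ⟨a', b'⟩ h
        obtain ⟨h1, h2⟩ := Prod.mk.inj h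
        subst h1
        subst h2
        rfl)
    have h2 := hsig.map_fun_eq_infinitePi_map (fun (p : (_ : ℕ) × Fin d) => hm p.1 p.2)
    have : ∀ (i : ℕ) (j : Fin d), IsProbabilityMeasure (P.map (fun ω (t : ℝ≥0) => Z i t ω j)) :=
      fun i j => Measure.isProbabilityMeasure_map (hm i j).aemeasurable
    have h3 := Measure.infinitePi_map_piCurry (X := fun (_ : ℕ) (_ : Fin d) => (ℝ≥0 → ℝ))
      (fun (i : ℕ) (j : Fin d) => P.map (fun ω (t : ℝ≥0) => Z i t ω j))
    have h4 : (fun ω (i : ℕ) (j : Fin d) (t : ℝ≥0) => Z i t ω j) =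
        (MeasurableEquiv.piCurry (fun (_ : ℕ) (_ : Fin d) => (ℝ≥0 → ℝ))) ∘
          (fun ω (p : (_ : ℕ) × Fin d) (t : ℝ≥0) => Z p.1 t ω p.2) := by
      funext ω
      rfl
    have h5 : Measurable (fun ω (p : (_ : ℕ) × Fin d) (t : ℝ≥0) => Z p.1 t ω p.2) :=
      measurable_pi_iff.mpr (fun (p : (_ : ℕ) × Fin d) => hm p.1 p.2)
    rw [h4, ← Measure.map_map (MeasurableEquiv.measurable _) h5, h2, h3]
    congr 1
    funext i
    exact (coords_law hZ i).symm
  exact h1.comp (fun _ => assemble d) (fun _ => measurable_assemble d)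

/-! ### The Markov property -/

/-- Two independent random variables form an independent family indexed by `Bool`. -/
lemma iIndepFun_bool {Ω β : Type} [MeasurableSpace Ω] [MeasurableSpace β] {P : Measure Ω}
    [IsProbabilityMeasure P] {f : Bool → Ω → β} (hf : ∀ b, Measurable (f b))
    (h : IndepFun (f true) (f false) P) : iIndepFun f P := by
  rw [iIndepFun_iff_map_fun_eq_infinitePi_map hf]
  have : ∀ b, IsProbabilityMeasure (P.map (f b)) := fun b =>
    Measure.isProbabilityMeasure_map (hf b).aemeasurable
  refine Measure.eq_infinitePi _ fun s t ht => ?_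
  have hm : Measurable (fun ω b => f b ω) := measurable_pi_iff.mpr hf
  have hs : ∀ b, P.map (f b) (t b) = P (f b ⁻¹' t b) := fun b =>
    Measure.map_apply (hf b) (ht b)
  rw [Measure.map_apply hm (MeasurableSet.pi s.countable_toSet fun b _ => ht b)]
  simp_rw [hs]
  have h2 := h.measure_inter_preimage_eq_mul _ _ (ht true) (ht false)
  by_cases h1 : true ∈ s <;> by_cases h0 : false ∈ s
  · have hs' : s = {true, false} := by
      ext b; cases b <;> simp [h1, h0]
    subst hs'
    rw [Finset.prod_pair (by simp), ← h2]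
    congr 1
    ext ω
    simp
  · have hs' : s = {true} := by
      ext b; cases b <;> simp [h1, h0]
    subst hs'
    rw [Finset.prod_singleton]
    congr 1
    ext ω
    simp
  · have hs' : s = {false} := by
      ext b; cases b <;> simp [h1, h0]
    subst hs'
    rw [Finset.prod_singleton]
    congr 1
    ext ω
    simp
  · have hs' : s = ∅ := by
      ext b; cases b <;> simp [h1, h0]
    subst hs'
    simp

/-- The coordinate `p` of the motions, frozen at time `s` (`b = false`) or restarted at time `s`
(`b = true`). -/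
noncomputable def part {d : ℕ} {Ω : Type} (Z : ℕ → ℝ≥0 → Ω → E d) (s : ℝ≥0) (p : ℕ × Fin d)
    (b : Bool) (ω : Ω) : ℝ≥0 → ℝ :=
  if b then fun u => Z p.1 (s + u) ω p.2 - Z p.1 s ω p.2 else fun u => Z p.1 (min u s) ω p.2

lemma measurable_part {d : ℕ} {Ω : Type} [MeasurableSpace Ω] {Z : ℕ → ℝ≥0 → Ω → E d}
    (hZ : ∀ i t, Measurable (Z i t)) (s : ℝ≥0) (p : ℕ × Fin d) (b : Bool) :
    Measurable (part Z s p b) := by
  cases b
  · refine measurable_pi_iff.mpr fun u => ?_
    exact (measurable_coord' p.2).comp (hZ p.1 (min u s))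
  · refine measurable_pi_iff.mpr fun u => ?_
    exact ((measurable_coord' p.2).comp (hZ p.1 (s + u))).sub
      ((measurable_coord' p.2).comp (hZ p.1 s))

/-- All the parts are independent. -/
lemma parts_indep {d : ℕ} {Ω : Type} [MeasurableSpace Ω] {P : Measure Ω} [IsProbabilityMeasure P]
    {Z : ℕ → ℝ≥0 → Ω → E d} (hZ : Motions P Z) (s : ℝ≥0) :
    iIndepFun (fun (q : (ℕ × Fin d) × Bool) ω => part Z s q.1 q.2 ω) P := by
  refine iIndepFun_uncurry' (X := fun p b ω => part Z s p b ω)
    (fun p b => measurable_part hZ.measurable s p b) ?_ ?_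
  · have hm : Measurable (fun (w : ℝ≥0 → ℝ) (b : Bool) => (if b then fun u => w (s + u) - w s
        else fun u => w (min u s) : ℝ≥0 → ℝ)) := by
      refine measurable_pi_iff.mpr fun b => ?_
      cases b
      · exact measurable_pi_iff.mpr fun u => measurable_pi_apply (min u s)
      · exact measurable_pi_iff.mpr fun u =>
          (measurable_pi_apply (s + u)).sub (measurable_pi_apply s)
    exact hZ.indep.comp (fun _ w (b : Bool) => (if b then fun u => w (s + u) - w s
        else fun u => w (min u s) : ℝ≥0 → ℝ)) (fun _ => hm)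
  · intro p
    refine iIndepFun_bool (fun b => measurable_part hZ.measurable s p b) ?_
    have h1 := (hZ.brownian p.1 p.2).toIsPreBrownianReal.indepFun_shift s
    have h2 : Measurable (fun (w : Set.Iic s → ℝ) (u : ℝ≥0) => w ⟨min u s, min_le_right u s⟩) :=
      measurable_pi_iff.mpr fun u => measurable_pi_apply _
    exact h1.comp measurable_id h2

lemma comap_pi_eq {Ω ι : Type} {β : ι → Type} [∀ i, MeasurableSpace (β i)]
    (f : (i : ι) → Ω → β i) :
    MeasurableSpace.comap (fun ω i => f i ω) MeasurableSpace.pi =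
      ⨆ i, MeasurableSpace.comap (f i) inferInstance := by
  unfold MeasurableSpace.pi
  rw [MeasurableSpace.comap_iSup]
  congr 1
  funext i
  rw [MeasurableSpace.comap_comp]
  rfl

/-- The past and the future of all the motions are independent. -/
lemma past_future {d : ℕ} {Ω : Type} [MeasurableSpace Ω] {P : Measure Ω} [IsProbabilityMeasure P]
    {Z : ℕ → ℝ≥0 → Ω → E d} (hZ : Motions P Z) (s : ℝ≥0) :
    IndepFun (fun ω (p : ℕ × Fin d) => part Z s p false ω)
      (fun ω (p : ℕ × Fin d) => part Z s p true ω) P := by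
  rw [IndepFun_iff_Indep, comap_pi_eq, comap_pi_eq]
  have h1 := (parts_indep hZ s).iIndep
  have h2 : ∀ q : (ℕ × Fin d) × Bool, MeasurableSpace.comap
      (fun ω => part Z s q.1 q.2 ω) inferInstance ≤ (inferInstance : MeasurableSpace Ω) :=
    fun q => (measurable_part hZ.measurable s q.1 q.2).comap_le
  have h3 := indep_iSup_of_disjoint h2 h1 (S := {q | q.2 = false}) (T := {q | q.2 = true}) (by
    rw [Set.disjoint_left]
    intro q hq hq'
    simp only [mem_ofPred_eq] at hq hq'
    rw [hq] at hq'
    exact absurd hq' (by simp))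
  refine indep_of_indep_of_le h3 ?_ ?_
  · refine iSup_le fun p => ?_
    exact le_iSup₂_of_le (p, false) rfl le_rfl
  · refine iSup_le fun p => ?_
    exact le_iSup₂_of_le (p, true) rfl le_rfl

/-- Adding an independent random variable to the first one of two independent variables. -/
lemma indep_add {Ω α β γ : Type} [MeasurableSpace Ω] [MeasurableSpace α] [MeasurableSpace β]
    [MeasurableSpace γ] {P : Measure Ω} [IsProbabilityMeasure P] {f : Ω → α} {g : Ω → β}
    {h : Ω → γ} (hf : Measurable f) (hg : Measurable g) (hh : Measurable h)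
    (h1 : IndepFun f (fun ω => (g ω, h ω)) P) (h2 : IndepFun g h P) :
    IndepFun (fun ω => (f ω, g ω)) h P := by
  have hfg : IndepFun f g P := h1.comp measurable_id measurable_fst
  have : IsProbabilityMeasure (P.map f) := Measure.isProbabilityMeasure_map hf.aemeasurable
  have : IsProbabilityMeasure (P.map g) := Measure.isProbabilityMeasure_map hg.aemeasurable
  have : IsProbabilityMeasure (P.map h) := Measure.isProbabilityMeasure_map hh.aemeasurable
  rw [indepFun_iff_map_prod_eq_prod_map_map (hf.prodMk hg).aemeasurable hh.aemeasurable]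
  rw [(indepFun_iff_map_prod_eq_prod_map_map hf.aemeasurable hg.aemeasurable).mp hfg]
  have h3 := (indepFun_iff_map_prod_eq_prod_map_map hf.aemeasurable
    (hg.prodMk hh).aemeasurable).mp h1
  rw [(indepFun_iff_map_prod_eq_prod_map_map hg.aemeasurable hh.aemeasurable).mp h2] at h3
  have h4 : (fun ω => ((f ω, g ω), h ω)) = (MeasurableEquiv.prodAssoc (α := α) (β := β)
      (γ := γ)).symm ∘ (fun ω => (f ω, (g ω, h ω))) := by
    funext ω
    rfl
  rw [h4, ← Measure.map_map (MeasurableEquiv.measurable _) (hf.prodMk (hg.prodMk hh)), h3]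
  have h5 := (measurePreserving_prodAssoc (P.map f) (P.map g) (P.map h)).map_eq
  rw [← h5, Measure.map_map (MeasurableEquiv.measurable _) (MeasurableEquiv.measurable _)]
  simp

/-- Past and future are independent. -/
theorem markov : S_markov := by
  intro d Ω _ P _ lam X Z hM s
  have hZ : Motions P Z := ⟨hM.measurable, hM.brownian, hM.indep⟩
  have hX : Measurable (fun ω i => X i ω) := measurable_pi_iff.mpr hM.points.measurable
  have hpa : Measurable (fun ω (p : ℕ × Fin d) => part Z s p false ω) :=
    measurable_pi_iff.mpr fun p => measurable_part hM.measurable s p false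
  have hfu : Measurable (fun ω (p : ℕ × Fin d) => part Z s p true ω) :=
    measurable_pi_iff.mpr fun p => measurable_part hM.measurable s p true
  have hco : ∀ (t : ℝ≥0) (p : ℕ × Fin d),
      Measurable (fun z : ℕ → ℝ≥0 → E d => z p.1 t p.2) := fun t p =>
    (measurable_coord' p.2).comp ((measurable_pi_apply t).comp (measurable_pi_apply p.1))
  have hmap : Measurable (fun z : ℕ → ℝ≥0 → E d =>
      ((fun (p : ℕ × Fin d) (u : ℝ≥0) => z p.1 (min u s) p.2),
        (fun (p : ℕ × Fin d) (u : ℝ≥0) => z p.1 (s + u) p.2 - z p.1 s p.2))) := by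
    refine Measurable.prodMk ?_ ?_
    · exact measurable_pi_iff.mpr fun p => measurable_pi_iff.mpr fun u => hco _ p
    · exact measurable_pi_iff.mpr fun p => measurable_pi_iff.mpr fun u =>
        (hco _ p).sub (hco _ p)
  have h1 : IndepFun (fun ω i => X i ω) (fun ω => ((fun (p : ℕ × Fin d) => part Z s p false ω),
      (fun (p : ℕ × Fin d) => part Z s p true ω))) P :=
    hM.indep_points.comp measurable_id hmap
  have h2 := indep_add hX hpa hfu h1 (past_future hZ s)
  rw [IndepFun_iff_Indep] at h2
  refine indep_of_indep_of_le h2 ?_ ?_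
  · refine sup_le ?_ ?_
    · refine iSup_le fun i => ?_
      rw [← measurable_iff_comap_le]
      have h3 : Measurable (fun q : (ℕ → E d) × (ℕ × Fin d → ℝ≥0 → ℝ) => q.1 i) :=
        (measurable_pi_apply i).comp measurable_fst
      exact h3.comp (comap_measurable _)
    · refine iSup_le fun i => iSup_le fun u => iSup_le fun hu => ?_
      rw [← measurable_iff_comap_le]
      have h3 : Measurable (fun q : (ℕ → E d) × (ℕ × Fin d → ℝ≥0 → ℝ) =>
          (WithLp.toLp 2 (fun j => q.2 (i, j) u) : E d)) := by
        refine (WithLp.measurable_toLp 2 (Fin d → ℝ)).comp (measurable_pi_iff.mpr fun j => ?_)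
        exact (measurable_pi_apply u).comp ((measurable_pi_apply (i, j)).comp measurable_snd)
      have h4 := h3.comp (comap_measurable (fun ω => ((fun i => X i ω),
        (fun (p : ℕ × Fin d) => part Z s p false ω))))
      have h5 : Z i u = (fun q : (ℕ → E d) × (ℕ × Fin d → ℝ≥0 → ℝ) =>
          (WithLp.toLp 2 (fun j => q.2 (i, j) u) : E d)) ∘ (fun ω => ((fun i => X i ω),
          (fun (p : ℕ × Fin d) => part Z s p false ω))) := by
        funext ω
        have h6 : min u s = u := min_eq_left hu
        have h7 : ∀ j : Fin d, part Z s (i, j) false ω u = Z i u ω j := by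
          intro j
          change Z i (min u s) ω j = Z i u ω j
          rw [h6]
        simp only [Function.comp_apply]
        simp_rw [h7]
      rw [h5]
      exact h4
  · rw [← measurable_iff_comap_le]
    have h3 : Measurable (fun (w : ℕ × Fin d → ℝ≥0 → ℝ) (i : ℕ) (u : ℝ≥0) =>
        (WithLp.toLp 2 (fun j => w (i, j) u) : E d)) := by
      refine measurable_pi_iff.mpr fun i => measurable_pi_iff.mpr fun u => ?_
      refine (WithLp.measurable_toLp 2 (Fin d → ℝ)).comp (measurable_pi_iff.mpr fun j => ?_)
      exact (measurable_pi_apply u).comp (measurable_pi_apply (i, j))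
    exact h3.comp (comap_measurable (fun ω (p : ℕ × Fin d) => part Z s p true ω))

end Pool.Agent.Helper56_LP
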