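import Pool.Agent.Helper712_LP.Stmts

/-!
# MP_f368f5_pr: the generating functional of a Poisson process

The proof of `S_ppp`: first for simple functions, then by monotone approximation from below.
-/

set_option autoImplicit false

namespace Pool.Agent.Helper56_LP

open MeasureTheory ProbabilityTheory Set Filter Topology
open scoped ENNReal NNReal
open Pool.Agent.Helper712_LP

section ppp

variable {d : ℕ} {Ω : Type} [MeasurableSpace Ω] {P : Measure Ω} [IsProbabilityMeasure P]
  {x : ℕ → Ω → E d}

omit [IsProbabilityMeasure P] in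
lemma measurable_count (hx : ∀ i, Measurable (x i)) {A : Set (E d)}
    (hA : MeasurableSet A) : Measurable (count x A) := by
  unfold count
  refine Measurable.tsum fun i => ?_
  exact (measurable_const.indicator hA).comp (hx i)

/-- The generating function of a Poisson variable. -/
lemma poisson_pgf (r : ℝ≥0) (c : ℝ≥0∞) (hc : c ≤ 1) :
    ∫⁻ n : ℕ, (1 - c) ^ n ∂(poissonMeasure r) =
      ENNReal.ofReal (Real.exp (-(r * c.toReal))) := by
  have hct : c ≠ ∞ := ne_top_of_le_ne_top ENNReal.one_ne_top hc
  have hc1 : c.toReal ≤ 1 := by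
    have := ENNReal.toReal_mono ENNReal.one_ne_top hc
    simpa using this
  have hc' : (0:ℝ) ≤ 1 - c.toReal := by linarith
  have h1 : (1 - c) = ENNReal.ofReal (1 - c.toReal) := by
    rw [ENNReal.ofReal_sub _ ENNReal.toReal_nonneg, ENNReal.ofReal_one,
      ENNReal.ofReal_toReal hct]
  rw [h1, poissonMeasure, lintegral_sum_measure]
  simp_rw [lintegral_smul_measure, lintegral_dirac, smul_eq_mul]
  have h2 : ∀ n : ℕ, ENNReal.ofReal (Real.exp (-r) * r ^ n / (n.factorial)) *
      ENNReal.ofReal (1 - c.toReal) ^ n =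
      ENNReal.ofReal (Real.exp (-r) * ((r * (1 - c.toReal)) ^ n / n.factorial)) := by
    intro n
    rw [← ENNReal.ofReal_pow hc', ← ENNReal.ofReal_mul (by positivity)]
    congr 1
    rw [mul_pow]
    ring
  simp_rw [h2]
  have h3 : HasSum (fun n : ℕ => Real.exp (-r) * ((r * (1 - c.toReal)) ^ n / n.factorial))
      (Real.exp (-r) * Real.exp (r * (1 - c.toReal))) := by
    have := (NormedSpace.expSeries_div_hasSum_exp ((r:ℝ) * (1 - c.toReal)))
    rw [← Real.exp_eq_exp_ℝ] at this
    exact this.mul_left _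
  rw [← ENNReal.ofReal_tsum_of_nonneg (fun n => by positivity) h3.summable, h3.tsum_eq,
    ← Real.exp_add]
  congr 2
  ring

/-- A finite product of decreasing factors in `[0,1]` is decreasing in the number of factors. -/
lemma prod_antitone (f : ℕ → ℝ≥0∞) :
    Antitone (fun m : ℕ => ∏ i ∈ Finset.range m, (1 - f i)) := by
  refine antitone_nat_of_succ_le fun m => ?_
  rw [Finset.prod_range_succ]
  exact mul_le_of_le_one_right' tsub_le_self

lemma prod_le_one' (f : ℕ → ℝ≥0∞) (m : ℕ) : ∏ i ∈ Finset.range m, (1 - f i) ≤ 1 :=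
  Finset.prod_le_one' fun _ _ => tsub_le_self

omit [IsProbabilityMeasure P] in
/-- The generating functional at a simple function. -/
lemma ppp_simple {lam : ℝ≥0} (hx : IsPoissonProcess P lam x)
    (ψ : SimpleFunc (E d) ℝ≥0∞) (hψ : ∀ z, ψ z ≤ 1) (hψi : ∫⁻ z, ψ z ≠ ∞) :
    ∫⁻ ω, ⨅ m : ℕ, ∏ i ∈ Finset.range m, (1 - ψ (x i ω)) ∂P =
      ENNReal.ofReal (Real.exp (-(lam * (∫⁻ z, ψ z).toReal))) := by
  classical
  set S : Finset ℝ≥0∞ := ψ.range.filter (fun c => c ≠ 0) with hS
  set A : S → Set (E d) := fun c => ψ ⁻¹' {c.1} with hA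
  have hAm : ∀ c, MeasurableSet (A c) := fun c => ψ.measurableSet_preimage _
  have hS0 : ∀ c ∈ S, c ≠ 0 := fun c hc => (Finset.mem_filter.mp hc).2
  have hS1 : ∀ c ∈ S, c ≤ 1 := by
    intro c hc
    have h1 := (Finset.mem_filter.mp hc).1
    rw [SimpleFunc.mem_range] at h1
    obtain ⟨z, rfl⟩ := h1
    exact hψ z
  have hint : ∫⁻ z, ψ z = ∑ c ∈ S, c * volume (ψ ⁻¹' {c}) := by
    rw [SimpleFunc.lintegral_eq_lintegral, SimpleFunc.lintegral]
    rw [hS, Finset.sum_filter]
    refine Finset.sum_congr rfl fun c _ => ?_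
    split_ifs with h0
    · rfl
    · push Not at h0
      simp [h0]
  have hAv : ∀ c, volume (A c) ≠ ∞ := by
    intro c htop
    have h1 : c.1 * volume (ψ ⁻¹' {c.1}) ≤ ∫⁻ z, ψ z := by
      rw [hint]
      exact Finset.single_le_sum (f := fun c : ℝ≥0∞ => c * volume (ψ ⁻¹' {c}))
        (fun _ _ => zero_le) c.2
    have h2 : volume (ψ ⁻¹' {c.1}) = ∞ := htop
    rw [h2, ENNReal.mul_top (hS0 c.1 c.2)] at h1
    exact hψi (top_le_iff.mp h1)
  have hdisj : Pairwise (Function.onFun Disjoint A) := by
    intro c c' hcc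
    rw [Function.onFun, Set.disjoint_left]
    intro z hz hz'
    simp only [hA, mem_preimage, mem_singleton_iff] at hz hz'
    exact hcc (Subtype.ext (hz.symm.trans hz'))
  have hindep := hx.indep S A hAm hAv hdisj
  -- almost sure finiteness
  have hfin : ∀ᵐ ω ∂P, ∀ c : S, count x (A c) ω ≠ ∞ := by
    rw [ae_all_iff]
    intro c
    have h1 := hx.law (A c) (hAm c) (hAv c)
    have h2 : P.map (count x (A c)) {∞} = 0 := by
      rw [h1, Measure.map_apply (by fun_prop) (measurableSet_singleton _)]
      have : (fun n : ℕ => (n : ℝ≥0∞)) ⁻¹' {∞} = ∅ := by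
        ext n; simp
      rw [this]
      simp
    rw [Measure.map_apply (measurable_count hx.measurable (hAm c)) (measurableSet_singleton _)]
      at h2
    rw [ae_iff]
    convert h2 using 2
    ext ω
    simp
  have hpt : ∀ᵐ ω ∂P, ⨅ m : ℕ, ∏ i ∈ Finset.range m, (1 - ψ (x i ω)) =
      ∏ c : S, (1 - c.1) ^ (count x (A c) ω).toReal := by
    filter_upwards [hfin] with ω hω
    have hfs : ∀ c : S, {i | x i ω ∈ A c}.Finite := by
      intro c
      have h1 := ENNReal.finite_const_le_of_tsum_ne_top (hω c) (ε := 1) one_ne_zero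
      refine h1.subset fun i hi => ?_
      simp only [Set.mem_ofPred_eq] at hi ⊢
      rw [indicator_of_mem hi]
    obtain ⟨m, hm⟩ : ∃ m, ∀ c : S, ∀ i, x i ω ∈ A c → i < m := by
      have h1 : (⋃ c : S, {i | x i ω ∈ A c}).Finite := Set.finite_iUnion hfs
      obtain ⟨m, hm⟩ := h1.bddAbove
      refine ⟨m + 1, fun c i hi => ?_⟩
      have := hm (mem_iUnion.mpr ⟨c, hi⟩)
      omega
    have hcount : ∀ n : ℕ, m ≤ n → ∀ c : S, count x (A c) ω =
        (((Finset.range n).filter (fun i => x i ω ∈ A c)).card : ℝ≥0∞) := by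
      intro n hn c
      unfold count
      rw [tsum_eq_sum (s := Finset.range n)]
      · rw [Finset.card_filter]
        push_cast
        refine Finset.sum_congr rfl fun i _ => ?_
        by_cases hi : x i ω ∈ A c
        · rw [indicator_of_mem hi, if_pos hi]
        · rw [indicator_of_notMem hi, if_neg hi]
      · intro i hi
        rw [indicator_of_notMem]
        intro h1
        exact hi (Finset.mem_range.mpr ((hm c i h1).trans_le hn))
    have hprod : ∀ n : ℕ, m ≤ n → ∏ i ∈ Finset.range n, (1 - ψ (x i ω)) =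
        ∏ c : S, (1 - c.1) ^ (count x (A c) ω).toReal := by
      intro n hn
      calc ∏ i ∈ Finset.range n, (1 - ψ (x i ω))
          = ∏ i ∈ Finset.range n, ∏ c : S, (if x i ω ∈ A c then (1 - c.1) else 1) := by
            refine Finset.prod_congr rfl fun i _ => ?_
            by_cases hi : ψ (x i ω) ∈ S
            · rw [Finset.prod_eq_single (⟨ψ (x i ω), hi⟩ : S)]
              · rw [if_pos (by simp [hA])]
              · intro c _ hc
                rw [if_neg]
                intro h1
                apply hc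
                simp only [hA, mem_preimage, mem_singleton_iff] at h1
                exact Subtype.ext h1.symm
              · intro h1
                exact absurd (Finset.mem_univ _) h1
            · have h0 : ψ (x i ω) = 0 := by
                by_contra hne
                exact hi (Finset.mem_filter.mpr ⟨SimpleFunc.mem_range_self _ _, hne⟩)
              rw [h0]
              symm
              rw [tsub_zero]
              refine Finset.prod_eq_one fun c _ => ?_
              rw [if_neg]
              intro h1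
              simp only [hA, mem_preimage, mem_singleton_iff] at h1
              exact hS0 c.1 c.2 (h1.symm.trans h0)
        _ = ∏ c : S, ∏ i ∈ Finset.range n, (if x i ω ∈ A c then (1 - c.1) else 1) :=
            Finset.prod_comm
        _ = _ := by
            refine Finset.prod_congr rfl fun c _ => ?_
            rw [hcount n hn c, ENNReal.toReal_natCast, ENNReal.rpow_natCast, Finset.prod_ite,
              Finset.prod_const, Finset.prod_const_one, mul_one]
    apply le_antisymm
    · exact (iInf_le _ m).trans (hprod m le_rfl).le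
    · refine le_iInf fun n => ?_
      rcases le_total m n with h | h
      · exact (hprod n h).ge
      · rw [← hprod m le_rfl]
        exact prod_antitone (fun i => ψ (x i ω)) h
  have hφm : ∀ c : S, Measurable (fun t : ℝ≥0∞ => (1 - c.1) ^ t.toReal) := by
    intro c
    exact Measurable.pow measurable_const ENNReal.measurable_toReal
  calc ∫⁻ ω, ⨅ m : ℕ, ∏ i ∈ Finset.range m, (1 - ψ (x i ω)) ∂P
      = ∫⁻ ω, ∏ c : S, (1 - c.1) ^ (count x (A c) ω).toReal ∂P :=
        lintegral_congr_ae hpt
    _ = ∏ c : S, ∫⁻ ω, (1 - c.1) ^ (count x (A c) ω).toReal ∂P := by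
        have h1 := hindep.comp (fun (c : S) t => (1 - c.1) ^ (t : ℝ≥0∞).toReal) hφm
        exact lintegral_prod_eq_prod_lintegral_of_indepFun Finset.univ _ h1
          (fun c => (hφm c).comp (measurable_count hx.measurable (hAm c)))
    _ = ∏ c : S, ENNReal.ofReal (Real.exp (-((lam * (volume (A c)).toNNReal : ℝ≥0) *
          c.1.toReal))) := by
        refine Finset.prod_congr rfl fun c _ => ?_
        rw [← poisson_pgf _ _ (hS1 c.1 c.2),
          ← lintegral_map (hφm c) (measurable_count hx.measurable (hAm c)),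
          hx.law (A c) (hAm c) (hAv c), lintegral_map (hφm c) (by fun_prop)]
        simp only [ENNReal.toReal_natCast, ENNReal.rpow_natCast]
    _ = _ := by
        rw [← ENNReal.ofReal_prod_of_nonneg (fun _ _ => (Real.exp_pos _).le), ← Real.exp_sum]
        congr 2
        rw [hint, ENNReal.toReal_sum (fun c hc => ENNReal.mul_ne_top
          (ne_top_of_le_ne_top ENNReal.one_ne_top (hS1 c hc))
          (hAv ⟨c, hc⟩)), Finset.mul_sum, ← Finset.sum_coe_sort S, Finset.sum_neg_distrib]
        congr 1
        refine Finset.sum_congr rfl fun c _ => ?_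
        rw [ENNReal.toReal_mul]
        simp only [hA, NNReal.coe_mul, ENNReal.coe_toNNReal_eq_toReal]
        ring

end ppp

/-- The generating functional of a Poisson process. -/
theorem ppp : S_ppp := by
  intro d Ω _ P _ lam x hx φ hφ hφ1 hφi
  set ψ : ℕ → SimpleFunc (E d) ℝ≥0∞ := SimpleFunc.eapprox φ with hψ
  have hmono : ∀ z, Monotone (fun n => ψ n z) := fun z m n h =>
    SimpleFunc.monotone_eapprox φ h z
  have hsup : ∀ z, ⨆ n, ψ n z = φ z := fun z => SimpleFunc.iSup_eapprox_apply hφ z
  have hle : ∀ n z, ψ n z ≤ φ z := fun n z => by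
    rw [← hsup z]
    exact le_iSup (fun n => ψ n z) n
  have hψ1 : ∀ n z, ψ n z ≤ 1 := fun n z => (hle n z).trans (hφ1 z)
  have hψi : ∀ n, ∫⁻ z, ψ n z ≠ ∞ := fun n =>
    ne_top_of_le_ne_top hφi (lintegral_mono (hle n))
  -- the product is the infimum of the products of the approximations
  have hlim : ∀ (m : ℕ) (ω : Ω), ⨅ n : ℕ, ∏ i ∈ Finset.range m, (1 - ψ n (x i ω)) =
      ∏ i ∈ Finset.range m, (1 - φ (x i ω)) := by
    intro m ω
    have h1 : Tendsto (fun n => ∏ i ∈ Finset.range m, (1 - ψ n (x i ω))) atTop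
        (𝓝 (∏ i ∈ Finset.range m, (1 - φ (x i ω)))) := by
      refine ENNReal.tendsto_finsetProd_of_ne_top _ (fun i _ => ?_) (fun i _ => ?_)
      · have h2 : Tendsto (fun n => ψ n (x i ω)) atTop (𝓝 (φ (x i ω))) := by
          rw [← hsup (x i ω)]
          exact tendsto_atTop_iSup (hmono (x i ω))
        exact ENNReal.Tendsto.sub tendsto_const_nhds h2 (Or.inl ENNReal.one_ne_top)
      · exact ne_top_of_le_ne_top ENNReal.one_ne_top tsub_le_self
    have h3 : Antitone (fun n => ∏ i ∈ Finset.range m, (1 - ψ n (x i ω))) := by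
      intro n n' h
      exact Finset.prod_le_prod' fun i _ => tsub_le_tsub_left (hmono (x i ω) h) _
    exact tendsto_nhds_unique (tendsto_atTop_iInf h3) h1
  have hswap : ∀ ω, ⨅ m : ℕ, ∏ i ∈ Finset.range m, (1 - φ (x i ω)) =
      ⨅ n : ℕ, ⨅ m : ℕ, ∏ i ∈ Finset.range m, (1 - ψ n (x i ω)) := by
    intro ω
    rw [iInf_comm]
    exact iInf_congr fun m => (hlim m ω).symm
  simp_rw [hswap]
  have hmeas : ∀ n : ℕ, Measurable (fun ω => ⨅ m : ℕ, ∏ i ∈ Finset.range m,
      (1 - ψ n (x i ω))) := by
    intro n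
    refine Measurable.iInf fun m => ?_
    refine Finset.measurable_fun_prod _ fun i _ => ?_
    exact Measurable.sub measurable_const ((ψ n).measurable.comp (hx.measurable i))
  have hanti : Antitone (fun n : ℕ => fun ω => ⨅ m : ℕ, ∏ i ∈ Finset.range m,
      (1 - ψ n (x i ω))) := by
    intro n n' h ω
    exact iInf_mono fun m => Finset.prod_le_prod' fun i _ =>
      tsub_le_tsub_left (hmono (x i ω) h) _
  rw [lintegral_iInf hmeas hanti]
  · have h1 : ∀ n, ∫⁻ ω, ⨅ m : ℕ, ∏ i ∈ Finset.range m, (1 - ψ n (x i ω)) ∂P =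
        ENNReal.ofReal (Real.exp (-(lam * (∫⁻ z, ψ n z).toReal))) := fun n =>
      ppp_simple hx (ψ n) (hψ1 n) (hψi n)
    simp_rw [h1]
    have h2 : Tendsto (fun n => ∫⁻ z, ψ n z) atTop (𝓝 (∫⁻ z, φ z)) := by
      have h3 : ∫⁻ z, φ z = ⨆ n, ∫⁻ z, ψ n z := by
        rw [← lintegral_iSup (fun n => (ψ n).measurable) (fun m n h z => hmono z h)]
        exact lintegral_congr fun z => (hsup z).symm
      rw [h3]
      exact tendsto_atTop_iSup fun m n h => lintegral_mono fun z => hmono z h
    have h4 : Tendsto (fun n => ENNReal.ofReal (Real.exp (-(lam * (∫⁻ z, ψ n z).toReal)))) atTop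
        (𝓝 (ENNReal.ofReal (Real.exp (-(lam * (∫⁻ z, φ z).toReal))))) := by
      refine ENNReal.tendsto_ofReal ?_
      refine (Real.continuous_exp.tendsto _).comp ?_
      exact (((ENNReal.tendsto_toReal hφi).comp h2).const_mul _).neg
    have h5 : Antitone (fun n => ENNReal.ofReal (Real.exp (-(lam * (∫⁻ z, ψ n z).toReal)))) := by
      intro n n' h
      refine ENNReal.ofReal_le_ofReal (Real.exp_le_exp.mpr (neg_le_neg ?_))
      refine mul_le_mul_of_nonneg_left ?_ lam.2
      exact ENNReal.toReal_mono (hψi n') (lintegral_mono fun z => hmono z h)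
    exact tendsto_nhds_unique (tendsto_atTop_iInf h5) h4
  · refine ne_top_of_le_ne_top ENNReal.one_ne_top ?_
    calc ∫⁻ ω, ⨅ m : ℕ, ∏ i ∈ Finset.range m, (1 - ψ 0 (x i ω)) ∂P
        ≤ ∫⁻ ω, 1 ∂P := lintegral_mono fun ω => (iInf_le _ 0).trans (by simp)
      _ = 1 := by simp

end Pool.Agent.Helper56_LP
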